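import Pool.Agent.F5S.Stmts

/-!
# F5S, rows BCL, NTM, MNB, MOT, WRR
-/

set_option autoImplicit false

open MeasureTheory Filter Topology

namespace Pool.Agent.F5S.H96

open Pool.Agent.BTL Pool.Agent.F5S

theorem bcl : BCLStmt := by
  intro Ω _ μ X hX r C hr0 hr1 k0 h
  have h1 : ∀ k, AEMeasurable (fun ω => ENNReal.ofReal |X (k + k0) ω|) μ := by
    intro k
    exact ENNReal.measurable_ofReal.comp_aemeasurable
      (continuous_abs.measurable.comp_aemeasurable (hX _))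
  have h2 : ∑' k, ∫⁻ ω, ENNReal.ofReal |X (k + k0) ω| ∂μ ≠ ⊤ := by
    have h3 : ∑' k, ∫⁻ ω, ENNReal.ofReal |X (k + k0) ω| ∂μ ≤
        ∑' k : ℕ, ENNReal.ofReal |C| * (ENNReal.ofReal r) ^ k := by
      refine ENNReal.tsum_le_tsum fun k => ?_
      refine (h (k + k0) (Nat.le_add_left _ _)).trans ?_
      rw [← ENNReal.ofReal_pow hr0.le, ← ENNReal.ofReal_mul (abs_nonneg C)]
      apply ENNReal.ofReal_le_ofReal
      have h4 : r ^ (k + k0) ≤ r ^ k := pow_le_pow_of_le_one hr0.le hr1.le (Nat.le_add_right _ _)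
      calc C * r ^ (k + k0) ≤ |C| * r ^ (k + k0) :=
            mul_le_mul_of_nonneg_right (le_abs_self C) (by positivity)
        _ ≤ |C| * r ^ k := mul_le_mul_of_nonneg_left h4 (abs_nonneg C)
    refine ne_top_of_le_ne_top ?_ h3
    rw [ENNReal.tsum_mul_left, ENNReal.tsum_geometric]
    refine ENNReal.mul_ne_top ENNReal.ofReal_ne_top ?_
    rw [ENNReal.inv_ne_top, ← ENNReal.ofReal_one, ← ENNReal.ofReal_sub _ hr0.le]
    have : 0 < ENNReal.ofReal (1 - r) := ENNReal.ofReal_pos.2 (by linarith)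
    exact this.ne'
  rw [← lintegral_tsum h1] at h2
  have h3 := ae_lt_top' (AEMeasurable.tsum h1) h2
  filter_upwards [h3] with ω hω
  have h4 := ENNReal.tendsto_atTop_zero_of_tsum_ne_top hω.ne
  rw [← tendsto_add_atTop_iff_nat k0]
  rw [tendsto_zero_iff_abs_tendsto_zero]
  have h5 := (ENNReal.tendsto_toReal ENNReal.zero_ne_top).comp h4
  rw [ENNReal.toReal_zero] at h5
  refine h5.congr fun k => ?_
  simp only [Function.comp]
  rw [ENNReal.toReal_ofReal (abs_nonneg _)]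

theorem ball_sub {T T' : ℝ} (h0 : 0 ≤ T) (h : T ≤ T') : ball T ⊆ ball T' := by
  classical
  intro x hx
  simp only [ball, Finset.mem_filter, Finset.mem_product, Finset.mem_Icc] at hx ⊢
  have h1 : ⌈|T|⌉ ≤ ⌈|T'|⌉ := Int.ceil_le_ceil (by
    rw [abs_of_nonneg h0, abs_of_nonneg (h0.trans h)]
    exact h)
  have h2 : T ^ 2 ≤ T' ^ 2 := pow_le_pow_left₀ h0 h 2
  refine ⟨⟨⟨by omega, by omega⟩, ⟨by omega, by omega⟩⟩, by linarith⟩

theorem trip_sub {T T' : ℝ} (h0 : 0 ≤ T) (h : T ≤ T') : trip T ⊆ trip T' := by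
  classical
  intro x hx
  simp only [trip, Finset.mem_filter, Finset.mem_product] at hx ⊢
  have := ball_sub h0 h
  exact ⟨⟨this hx.1.1, this hx.1.2.1, this hx.1.2.2⟩, hx.2⟩

theorem wnd_nn (a b c d : ℝ) (y : ℝ × ℝ) : 0 ≤ wnd a b c d y := by
  unfold wnd
  split_ifs <;> norm_num

theorem wnd_mono {a b c d a' b' c' d' : ℝ} (h1 : a' ≤ a) (h2 : b ≤ b') (h3 : c' ≤ c)
    (h4 : d ≤ d') (y : ℝ × ℝ) : wnd a b c d y ≤ wnd a' b' c' d' y := by
  unfold wnd
  split_ifs with h h'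
  · exact le_rfl
  · exact absurd ⟨by linarith [h.1], by linarith [h.2.1], by linarith [h.2.2.1],
      by linarith [h.2.2.2]⟩ h'
  · norm_num
  · exact le_rfl

theorem ntm : NTMStmt := by
  refine ⟨fun T T' a b c d A h0 h => ?_, fun T a b c d a' b' c' d' A h1 h2 h3 h4 => ?_⟩
  · exact Finset.sum_le_sum_of_subset_of_nonneg (trip_sub h0 h) fun t _ _ => wnd_nn _ _ _ _ _
  · exact Finset.sum_le_sum fun t _ => wnd_mono h1 h2 h3 h4 _

theorem cont_dif (t : Z6) : Continuous fun A : ℝ × ℝ × ℝ => dif A t := by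
  unfold dif qz qf
  fun_prop

theorem meas_wnd (a b c d : ℝ) : Measurable (wnd a b c d) := by
  classical
  unfold wnd
  refine Measurable.ite ?_ measurable_const measurable_const
  have : {y : ℝ × ℝ | a < y.1 ∧ y.1 < b ∧ c < y.2 ∧ y.2 < d} =
      {y : ℝ × ℝ | a < y.1} ∩ ({y : ℝ × ℝ | y.1 < b} ∩ ({y : ℝ × ℝ | c < y.2} ∩
        {y : ℝ × ℝ | y.2 < d})) := by
    ext y
    rfl
  rw [this]
  exact (measurableSet_lt measurable_const measurable_fst).inter
    ((measurableSet_lt measurable_fst measurable_const).inter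
      ((measurableSet_lt measurable_const measurable_snd).inter
        (measurableSet_lt measurable_snd measurable_const)))

theorem mnb : MNBStmt := by
  intro T K a b c d
  unfold NB
  exact Finset.measurable_sum _ fun t _ => (meas_wnd a b c d).comp (cont_dif t).measurable

theorem mot : MOTStmt := by
  intro f l hf0 hmono hl h
  rw [Metric.tendsto_atTop]
  intro ε hε
  -- the step
  obtain ⟨m, hm⟩ := exists_nat_gt (6 * (l + 1) / (ε / 2))
  obtain ⟨δ, hδ⟩ : ∃ δ : ℝ, δ = 1 / ((m : ℝ) + 1) := ⟨_, rfl⟩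
  have hm0 : (0 : ℝ) < (m : ℝ) + 1 := by positivity
  have hδ0 : 0 < δ := by rw [hδ]; positivity
  have hδ1 : δ ≤ 1 := by
    rw [hδ, div_le_one hm0]
    have : (0 : ℝ) ≤ m := by positivity
    linarith
  have hδ2 : 3 * δ * (l + 1) ≤ ε / 4 := by
    have h1 : 6 * (l + 1) < (ε / 2) * ((m : ℝ) + 1) := by
      rw [div_lt_iff₀ (by positivity)] at hm
      nlinarith
    have h2 : 6 * (l + 1) * δ < ε / 2 := by
      rw [hδ, mul_one_div, div_lt_iff₀ hm0]
      exact h1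
    linarith
  obtain ⟨q, hq⟩ : ∃ q : ℝ, q = 1 + δ := ⟨_, rfl⟩
  have hq1 : 1 < q := by rw [hq]; linarith
  have hq2 : q ^ 2 ≤ 1 + 3 * δ := by rw [hq]; nlinarith
  have hq0 : 0 < q := by linarith
  obtain ⟨ε', hε'⟩ : ∃ ε' : ℝ, ε' = min (ε / 4) 1 := ⟨_, rfl⟩
  have hε'0 : 0 < ε' := by rw [hε']; exact lt_min (by linarith) one_pos
  have hε'1 : ε' ≤ ε / 4 := by rw [hε']; exact min_le_left _ _
  have hε'2 : ε' ≤ 1 := by rw [hε']; exact min_le_right _ _
  have hm' := h m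
  rw [← hδ, ← hq, Metric.tendsto_atTop] at hm'
  obtain ⟨K, hK⟩ := hm' ε' hε'0
  refine ⟨q ^ (K + 1), fun T hT => ?_⟩
  have hT1 : 1 ≤ T := (one_le_pow₀ hq1.le).trans hT
  have hT0 : 0 < T := by linarith
  obtain ⟨k, hk1, hk2⟩ := exists_nat_pow_near hT1 hq1
  have hkK : K ≤ k := by
    have h1 : q ^ (K + 1) < q ^ (k + 1) := lt_of_le_of_lt hT hk2
    have h2 := (pow_lt_pow_iff_right₀ hq1).1 h1
    omega
  have hqk : 0 < q ^ k := pow_pos hq0 k
  have hqk1 : 0 < q ^ (k + 1) := pow_pos hq0 _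
  have e1 := hK k hkK
  have e2 := hK (k + 1) (hkK.trans (Nat.le_succ k))
  rw [Real.dist_eq, abs_lt] at e1 e2 ⊢
  have hup : f T / T ^ 2 ≤ q ^ 2 * (f (q ^ (k + 1)) / (q ^ (k + 1)) ^ 2) := by
    have h1 : f T ≤ f (q ^ (k + 1)) := hmono _ _ hT0.le hk2.le
    have h2 : (q ^ k) ^ 2 ≤ T ^ 2 := pow_le_pow_left₀ hqk.le hk1 2
    calc f T / T ^ 2 ≤ f (q ^ (k + 1)) / (q ^ k) ^ 2 :=
          div_le_div₀ (hf0 _) h1 (by positivity) h2
      _ = q ^ 2 * (f (q ^ (k + 1)) / (q ^ (k + 1)) ^ 2) := by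
          rw [pow_succ q k]
          field_simp
  have hlo : f (q ^ k) / (q ^ k) ^ 2 ≤ q ^ 2 * (f T / T ^ 2) := by
    have h1 : f (q ^ k) ≤ f T := hmono _ _ hqk.le hk1
    have h2 : T ^ 2 ≤ (q ^ (k + 1)) ^ 2 := pow_le_pow_left₀ hT0.le hk2.le 2
    have h3 : T ^ 2 / (q ^ (k + 1)) ^ 2 ≤ 1 := by
      rw [div_le_one (by positivity)]
      exact h2
    have h4 : f (q ^ k) / (q ^ k) ^ 2 = q ^ 2 * (f (q ^ k) / T ^ 2) *
        (T ^ 2 / (q ^ (k + 1)) ^ 2) := by
      rw [pow_succ q k]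
      field_simp
    rw [h4]
    have h5 : 0 ≤ q ^ 2 * (f (q ^ k) / T ^ 2) := by
      have := hf0 (q ^ k)
      positivity
    calc q ^ 2 * (f (q ^ k) / T ^ 2) * (T ^ 2 / (q ^ (k + 1)) ^ 2)
        ≤ q ^ 2 * (f (q ^ k) / T ^ 2) := mul_le_of_le_one_right h5 h3
      _ ≤ q ^ 2 * (f T / T ^ 2) := by gcongr
  have hF0 : 0 ≤ f T / T ^ 2 := by
    have := hf0 T
    positivity
  have hG0 : 0 ≤ f (q ^ (k + 1)) / (q ^ (k + 1)) ^ 2 := by
    have := hf0 (q ^ (k + 1))
    positivity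
  constructor
  · -- lower
    by_contra hc
    rw [not_lt] at hc
    have h1 : q ^ 2 * (f T / T ^ 2) ≤ (1 + 3 * δ) * (f T / T ^ 2) :=
      mul_le_mul_of_nonneg_right hq2 hF0
    have h2 : f T / T ^ 2 ≤ l := by linarith
    have h3 : 3 * δ * (f T / T ^ 2) ≤ 3 * δ * (l + 1) :=
      mul_le_mul_of_nonneg_left (by linarith) (by linarith)
    linarith [e1.1]
  · have h1 : q ^ 2 * (f (q ^ (k + 1)) / (q ^ (k + 1)) ^ 2) ≤
        (1 + 3 * δ) * (f (q ^ (k + 1)) / (q ^ (k + 1)) ^ 2) :=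
      mul_le_mul_of_nonneg_right hq2 hG0
    have h2 : 3 * δ * (f (q ^ (k + 1)) / (q ^ (k + 1)) ^ 2) ≤ 3 * δ * (l + 1) :=
      mul_le_mul_of_nonneg_left (by linarith [e2.2]) (by linarith)
    linarith [e2.2]

theorem wrr (hN : NTMStmt) : WRRStmt := by
  intro A κ hκ h a b c d hab hcd
  obtain ⟨-, hmono⟩ := hN
  obtain ⟨g, hg⟩ : ∃ g, g = (b - a) * (d - c) * κ := ⟨_, rfl⟩
  rw [← hg, tendsto_order]
  have hcont : ∀ s : ℝ, Tendsto (fun δ : ℝ => (b - a + s * δ) * (d - c + s * δ) * κ)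
      (𝓝[>] 0) (𝓝 g) := by
    intro s
    have h1 : Continuous fun δ : ℝ => (b - a + s * δ) * (d - c + s * δ) * κ := by fun_prop
    have h2 := h1.tendsto 0
    simp only [mul_zero, add_zero] at h2
    rw [← hg] at h2
    exact h2.mono_left nhdsWithin_le_nhds
  constructor
  · intro y hy
    have h1 := (hcont (-2)).eventually_const_lt hy
    have h2 : ∀ᶠ δ : ℝ in 𝓝[>] 0, 2 * δ < b - a ∧ 2 * δ < d - c := by
      have h3 : ∀ᶠ δ : ℝ in 𝓝 0, 2 * δ < b - a ∧ 2 * δ < d - c := by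
        have h4 : Continuous fun δ : ℝ => 2 * δ := by fun_prop
        have h5 := h4.tendsto 0
        rw [mul_zero] at h5
        exact (h5.eventually_lt_const (by linarith)).and (h5.eventually_lt_const (by linarith))
      exact h3.filter_mono nhdsWithin_le_nhds
    obtain ⟨δ, ⟨hδ1, hδ2, hδ3⟩, hδ0⟩ := ((h1.and h2).and self_mem_nhdsWithin).exists
    obtain ⟨a', ha1, ha2⟩ := exists_rat_btwn (show a < a + δ by linarith)
    obtain ⟨b', hb1, hb2⟩ := exists_rat_btwn (show b - δ < b by linarith)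
    obtain ⟨c', hc1, hc2⟩ := exists_rat_btwn (show c < c + δ by linarith)
    obtain ⟨d', hd1, hd2⟩ := exists_rat_btwn (show d - δ < d by linarith)
    have hab' : (a' : ℝ) < b' := by linarith
    have hcd' : (c' : ℝ) < d' := by linarith
    have h3 := h a' b' c' d' (by exact_mod_cast hab') (by exact_mod_cast hcd')
    have h4 : y < ((b' : ℝ) - a') * ((d' : ℝ) - c') * κ := by
      refine lt_of_lt_of_le hδ1 ?_
      refine mul_le_mul_of_nonneg_right ?_ hκ
      refine mul_le_mul (by linarith) (by linarith) (by linarith) (by linarith)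
    filter_upwards [h3.eventually_const_lt h4] with T hT
    refine lt_of_lt_of_le hT ?_
    exact div_le_div_of_nonneg_right (hmono T a' b' c' d' a b c d A ha1.le hb2.le hc1.le hd2.le)
      (by positivity)
  · intro y hy
    have h1 := (hcont 2).eventually_lt_const hy
    obtain ⟨δ, hδ1, hδ0⟩ := (h1.and self_mem_nhdsWithin).exists
    obtain ⟨a', ha1, ha2⟩ := exists_rat_btwn (show a - δ < a by linarith)
    obtain ⟨b', hb1, hb2⟩ := exists_rat_btwn (show b < b + δ by linarith)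
    obtain ⟨c', hc1, hc2⟩ := exists_rat_btwn (show c - δ < c by linarith)
    obtain ⟨d', hd1, hd2⟩ := exists_rat_btwn (show d < d + δ by linarith)
    have hab' : (a' : ℝ) < b' := by linarith
    have hcd' : (c' : ℝ) < d' := by linarith
    have h3 := h a' b' c' d' (by exact_mod_cast hab') (by exact_mod_cast hcd')
    have h4 : ((b' : ℝ) - a') * ((d' : ℝ) - c') * κ < y := by
      refine lt_of_le_of_lt ?_ hδ1
      refine mul_le_mul_of_nonneg_right ?_ hκ
      refine mul_le_mul (by linarith) (by linarith) (by linarith) (by linarith)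
    filter_upwards [h3.eventually_lt_const h4] with T hT
    refine lt_of_le_of_lt ?_ hT
    exact div_le_div_of_nonneg_right (hmono T a b c d a' b' c' d' A ha2.le hb1.le hc2.le hd1.le)
      (by positivity)

end Pool.Agent.F5S.H96
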